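import Pool.Agent.Lib.MP_b5021c_nt.IfaceB
import Pool.Agent.Lib.MP_b5021c_nt.B.H06.B2f
import Pool.Agent.Lib.MP_b5021c_nt.H76.Za
import Pool.Agent.Lib.MP_b5021c_nt.B.H36.Evr
import Pool.Agent.Lib.MP_b5021c_nt.B.H07.Zfi

/-!
# Row B5C: closing an extreme ray preserves stability
-/

namespace Pool.Agent.B5.H38

open Polynomial Filter Topology
open scoped LaurentPolynomial
open Pool.Agent.B5.H06 (qr qr_eval qr_natDegree qr_coeff evR_cont)

section

variable {L : Type} [AddCommGroup L]

/-- The character of `L` which extends `u` and has the value `e` at `S`. -/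
noncomputable def up (k : L →+ ℤ) (S : L) (h : k S = 1) (e : Circle) (u : AddChar (Ker k) Circle) :
    AddChar L Circle where
  toFun a := u (prj k S h a) * e ^ (k a)
  map_zero_eq_one' := by simp
  map_add_eq_mul' a b := by
    rw [map_add, AddChar.map_add_eq_mul, map_add, zpow_add]; exact mul_mul_mul_comm _ _ _ _

theorem sl_zero (u : AddChar L Circle) (lam : L →+ ℤ) : sl u lam (0 : CA L) = 0 := by
  simp [sl]

theorem sl_add (u : AddChar L Circle) (lam : L →+ ℤ) (p q : CA L) :
    sl u lam (p + q) = sl u lam p + sl u lam q := by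
  unfold sl
  rw [AddMonoidAlgebra.coeff_add]
  refine Finsupp.sum_add_index' (fun a => ?_) fun a b c => ?_
  · simp
  · rw [add_mul, map_add]

theorem sl_single (u : AddChar L Circle) (lam : L →+ ℤ) (a : L) (c : ℂ) :
    sl u lam (AddMonoidAlgebra.single a c) = monomial (lam a).toNat (c * (u a : ℂ)) := by
  unfold sl
  rw [AddMonoidAlgebra.coeff_single, Finsupp.sum_single_index]
  simp

theorem qr_zero (u : AddChar L Circle) (mu lam : L →+ ℤ) (r : ℂ) : qr u mu lam r (0 : CA L) = 0 := by
  simp [qr]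

theorem qr_add (u : AddChar L Circle) (mu lam : L →+ ℤ) (r : ℂ) (p q : CA L) :
    qr u mu lam r (p + q) = qr u mu lam r p + qr u mu lam r q := by
  unfold qr
  rw [AddMonoidAlgebra.coeff_add]
  refine Finsupp.sum_add_index' (fun a => ?_) fun a b c => ?_
  · simp
  · rw [add_mul, add_mul, map_add]

theorem qr_single (u : AddChar L Circle) (mu lam : L →+ ℤ) (r : ℂ) (a : L) (c : ℂ) :
    qr u mu lam r (AddMonoidAlgebra.single a c) =
      monomial (lam a).toNat (c * (u a : ℂ) * r ^ (mu a).toNat) := by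
  unfold qr
  rw [AddMonoidAlgebra.coeff_single, Finsupp.sum_single_index]
  simp

theorem spec_single {O : Type} [CommRing O] [Coef O] (z : Circle) (a : L) (q : RO O) :
    spec z (AddMonoidAlgebra.single a q : AO O L) = AddMonoidAlgebra.single a (evR z q) := by
  simp [spec]

/-- Slices of the closed element. -/
theorem sl_cl {O : Type} [CommRing O] [Coef O] (k : L →+ ℤ) (S : L) (h : k S = 1)
    (eta : (RO O)ˣ) (lam : L →+ ℤ) (hS : lam S = 0) (z e : Circle)
    (he : (e : ℂ) = evR z (eta : RO O)) (u : AddChar (Ker k) Circle) (D : AO O L) :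
    sl u (lam.comp (incl (Ker k))) (spec z (cl k S h eta D)) =
      qr (up k S h e u) k lam 1 (spec z D) := by
  have hz : ∀ n : ℤ, evR z (((eta ^ n : (RO O)ˣ) : RO O)) = ((e ^ n : Circle) : ℂ) := by
    intro n
    have h1 : evR z (((eta ^ n : (RO O)ˣ) : RO O)) =
        ((Units.map (evR z : RO O →+* ℂ).toMonoidHom eta ^ n : ℂˣ) : ℂ) := by
      rw [← map_zpow]; rfl
    rw [h1, Units.val_zpow_eq_zpow_val]
    push_cast
    rw [he]
    rfl
  induction D using AddMonoidAlgebra.induction_linear with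
  | zero => rw [map_zero, map_zero, map_zero, sl_zero, qr_zero]
  | add f g hf hg => rw [map_add, map_add, map_add, sl_add, qr_add, hf, hg]
  | single a q =>
    rw [cl_single, spec_single, spec_single, sl_single, qr_single, one_pow, mul_one, map_mul (evR z), hz]
    have h1 : (lam.comp (incl (Ker k))) (prj k S h a) = lam a := by
      rw [AddMonoidHom.comp_apply, incl_apply, prj_coe, map_sub, map_zsmul, hS, smul_zero, sub_zero]
    have h2 : ((up k S h e u a : Circle) : ℂ) = (u (prj k S h a) : ℂ) * ((e ^ (k a) : Circle) : ℂ) := by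
      rw [← Circle.coe_mul]; rfl
    rw [h1, h2]
    congr 1
    ring

/-- The value at `0`. -/
theorem qr_eval_zero (k : L →+ ℤ) (S : L) (h : k S = 1) (lam : L →+ ℤ) (hS : lam S = 0)
    (p : CA L) (hp : ∀ a ∈ p.coeff.support, a ≠ 0 → a ≠ S → 0 < lam a) (u : AddChar L Circle) (t : ℂ) :
    (qr u k lam t p).coeff 0 = p.coeff 0 + p.coeff S * (u S : ℂ) * t := by
  classical
  have hS0 : (0 : L) ≠ S := by
    rintro rfl
    simp at h
  rw [qr_coeff]
  have h1 : ∑ a ∈ p.coeff.support,
      (if (lam a).toNat = 0 then p.coeff a * (u a : ℂ) * t ^ (k a).toNat else 0) =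
      ∑ a ∈ p.coeff.support ∪ {0, S},
        (if (lam a).toNat = 0 then p.coeff a * (u a : ℂ) * t ^ (k a).toNat else 0) := by
    refine Finset.sum_subset Finset.subset_union_left fun a _ ha => ?_
    rw [Finsupp.notMem_support_iff] at ha
    rw [ha, zero_mul, zero_mul]
    split_ifs <;> rfl
  have h2 : ∑ a ∈ ({0, S} : Finset L),
      (if (lam a).toNat = 0 then p.coeff a * (u a : ℂ) * t ^ (k a).toNat else 0) =
      ∑ a ∈ p.coeff.support ∪ {0, S},
        (if (lam a).toNat = 0 then p.coeff a * (u a : ℂ) * t ^ (k a).toNat else 0) := by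
    refine Finset.sum_subset Finset.subset_union_right fun a ha1 ha => ?_
    rw [Finset.mem_insert, Finset.mem_singleton, not_or] at ha
    have hm : a ∈ p.coeff.support := by
      rcases Finset.mem_union.mp ha1 with h3 | h3
      · exact h3
      · rw [Finset.mem_insert, Finset.mem_singleton] at h3
        rcases h3 with h3 | h3
        · exact absurd h3 ha.1
        · exact absurd h3 ha.2
    have h3 := hp a hm ha.1 ha.2
    rw [if_neg]
    omega
  rw [h1, ← h2, Finset.sum_pair hS0, map_zero lam, map_zero k, hS, h]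
  simp

end

theorem b5c (h1 : MultiS) (h2 : B5aS) (h3 : StSpecS) : B5S := by
  intro O _ _ _ _ L _ _ _ D k S h eta lam hD hk hlS hpos hne
  classical
  obtain ⟨e0, epos⟩ := h2 O L D k S h eta lam hlS hpos
  refine ⟨by rw [e0]; exact hne, lam.comp (incl (Ker k)), epos, ?_⟩
  have hS0 : (0 : L) ≠ S := by
    rintro rfl
    simp at h
  have hsub : ∀ z : Circle, (spec z D).coeff.support ⊆ D.coeff.support := by
    intro z a ha
    rw [Finsupp.mem_support_iff, spec_coeff] at ha
    rw [Finsupp.mem_support_iff]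
    intro h
    rw [h, map_zero] at ha
    exact ha rfl
  have hposz : ∀ z : Circle, ∀ a ∈ (spec z D).coeff.support, a ≠ 0 → a ≠ S → 0 < lam a := by
    intro z a ha
    exact hpos a (Finsupp.mem_support_iff.mp (hsub z ha))
  have hkz : ∀ z : Circle, ∀ a ∈ (spec z D).coeff.support, 0 ≤ k a := fun z a ha => hk a (hsub z ha)
  have hlz : ∀ z : Circle, ∀ a ∈ (spec z D).coeff.support, 0 ≤ lam a := by
    intro z a ha
    by_cases h4 : a = 0
    · rw [h4, map_zero]
    · by_cases h5 : a = S
      · rw [h5, hlS]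
      · exact (hposz z a ha h4 h5).le
  -- zero-free in two variables
  have hzf : ∀ z : Circle, evR z (D.coeff 0) ≠ 0 → ∀ (u : AddChar L Circle) (t s : ℂ), ‖t‖ < 1 →
      ‖s‖ < 1 → (qr u k lam t (spec z D)).eval s ≠ 0 := by
    intro z hz u t s ht hs
    rw [qr_eval]
    refine h1 L (spec z D) ((h3 O L D).1 hD z hz) Bool _ ?_ ?_ u _ ?_
    · intro b
      cases b
      · exact hlz z
      · exact hkz z
    · intro a ha ha0
      rw [Fintype.sum_bool]
      simp only [cond_true, cond_false]
      have h4 := hkz z a ha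
      have h5 := hlz z a ha
      by_cases h6 : a = S
      · rw [h6, h, hlS]; norm_num
      · have := hposz z a ha ha0 h6
        omega
    · intro b
      cases b
      · exact hs
      · exact ht
  -- the coefficient of the ray is bounded by the constant coefficient
  have hb1 : ∀ z : Circle, evR z (D.coeff 0) ≠ 0 → ‖evR z (D.coeff S)‖ ≤ ‖evR z (D.coeff 0)‖ := by
    intro z hz
    by_contra hcon
    push Not at hcon
    have hSz : evR z (D.coeff S) ≠ 0 := by
      intro h4
      rw [h4, norm_zero] at hcon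
      exact absurd hcon (not_lt.mpr (norm_nonneg _))
    have h4 := hzf z hz 1 (-(evR z (D.coeff 0)) / evR z (D.coeff S)) 0 (by
      rw [norm_div, norm_neg, div_lt_one (norm_pos_iff.mpr hSz)]
      exact hcon) (by simp)
    apply h4
    rw [← coeff_zero_eq_eval_zero, qr_eval_zero k S h lam hlS _ (hposz z), spec_coeff, spec_coeff]
    have h5 : ((1 : AddChar L Circle) S : ℂ) = 1 := by simp
    rw [h5, mul_one, mul_div_cancel₀ _ hSz]
    ring
  have hb : ∀ z : Circle, ‖evR z (D.coeff S)‖ ≤ ‖evR z (D.coeff 0)‖ := by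
    intro z
    have hfin : {z : Circle | evR z (D.coeff 0) = 0}.Finite := Pool.Agent.B5.H07.zfi O _ hD.1
    have hnt : Nontrivial Circle := by
      refine ⟨⟨1, Circle.exp Real.pi, fun h => ?_⟩⟩
      have h1 := congrArg (fun w : Circle => (w : ℂ)) h
      simp only [Circle.coe_one, Circle.coe_exp, Complex.exp_pi_mul_I] at h1
      norm_num at h1
    have hdense : Dense ({z : Circle | evR z (D.coeff 0) = 0}ᶜ) := by
      have := Dense.sdiff_finite (dense_univ (X := Circle)) hfin
      rwa [← Set.compl_eq_univ_sdiff] at this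
    have hclosed : IsClosed {z : Circle | ‖evR z (D.coeff S)‖ ≤ ‖evR z (D.coeff 0)‖} :=
      isClosed_le (evR_cont _).norm (evR_cont _).norm
    have hsubset : ({z : Circle | evR z (D.coeff 0) = 0}ᶜ) ⊆
        {z : Circle | ‖evR z (D.coeff S)‖ ≤ ‖evR z (D.coeff 0)‖} := fun z hz => hb1 z hz
    have huniv := (hdense.mono hsubset).closure_eq
    rw [hclosed.closure_eq] at huniv
    have hz : z ∈ {z : Circle | ‖evR z (D.coeff S)‖ ≤ ‖evR z (D.coeff 0)‖} := huniv ▸ Set.mem_univ z
    exact hz
  intro z hz u s hs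
  rw [e0, map_add, map_mul] at hz
  have hD0 : evR z (D.coeff 0) ≠ 0 := by
    intro h4
    have h5 := hb z
    rw [h4, norm_zero, norm_le_zero_iff] at h5
    rw [h4, h5, mul_zero, add_zero] at hz
    exact hz rfl
  have hunit : ‖evR z (eta : RO O)‖ = 1 := ((Pool.Agent.B5.H36.evrs O).2.1) z _ eta.isUnit
  set e : Circle := ⟨evR z (eta : RO O), mem_sphere_zero_iff_norm.mpr hunit⟩ with he
  have hecoe : (e : ℂ) = evR z (eta : RO O) := rfl
  rw [sl_cl k S h eta lam hlS z e hecoe u D]
  set U := up k S h e u with hU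
  have hUS : (U S : ℂ) = evR z (eta : RO O) := by
    have hp : prj k S h S = 0 := by
      apply Subtype.ext
      rw [prj_coe, h, one_zsmul, sub_self]; rfl
    have h4 : U S = u (prj k S h S) * e ^ (k S) := rfl
    rw [h4, hp, h, AddChar.map_zero_eq_one, one_mul, zpow_one]
  set m : ℕ := D.coeff.support.sup fun a => (lam a).toNat with hm
  have hdeg : ∀ t : ℂ, (qr U k lam t (spec z D)).natDegree ≤ m := by
    intro t
    refine qr_natDegree U k lam t _ m fun a ha => ?_
    exact Finset.le_sup (f := fun a => (lam a).toNat) (hsub z ha)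
  have hineq : ∀ t : ℝ, 0 < t → t < 1 →
      ‖evR z (D.coeff 0) + evR z (D.coeff S) * evR z (eta : RO O) * (t : ℂ)‖ * (1 - ‖s‖) ^ m ≤
        ‖(qr U k lam (t : ℂ) (spec z D)).eval s‖ := by
    intro t ht0 ht1
    have htn : ‖(t : ℂ)‖ < 1 := by
      rw [Complex.norm_real, Real.norm_of_nonneg ht0.le]; exact ht1
    have h4 := Pool.Agent.MP_b5021c_nt.H76.a3b (qr U k lam (t : ℂ) (spec z D)) m (hdeg _)
      (fun w hw => hzf z hD0 U (t : ℂ) w htn hw) s hs.le
    rw [qr_eval_zero k S h lam hlS _ (hposz z), spec_coeff, spec_coeff, hUS] at h4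
    exact h4
  have hc1 : Continuous fun t : ℝ =>
      ‖evR z (D.coeff 0) + evR z (D.coeff S) * evR z (eta : RO O) * (t : ℂ)‖ * (1 - ‖s‖) ^ m := by
    fun_prop
  have hc2 : Continuous fun t : ℝ => ‖(qr U k lam (t : ℂ) (spec z D)).eval s‖ := by
    have h4 : ∀ t : ℝ, (qr U k lam (t : ℂ) (spec z D)).eval s =
        ∑ a ∈ (spec z D).coeff.support,
          (spec z D).coeff a * (U a : ℂ) * (t : ℂ) ^ (k a).toNat * s ^ (lam a).toNat := by
      intro t
      unfold qr
      rw [Finsupp.sum, eval_finsetSum]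
      refine Finset.sum_congr rfl fun a _ => ?_
      rw [eval_monomial]
    simp_rw [h4]
    fun_prop
  have hlim : ‖evR z (D.coeff 0) + evR z (D.coeff S) * evR z (eta : RO O) * ((1 : ℝ) : ℂ)‖ *
      (1 - ‖s‖) ^ m ≤ ‖(qr U k lam ((1 : ℝ) : ℂ) (spec z D)).eval s‖ := by
    have hne : (𝓝[<] (1 : ℝ)).NeBot := inferInstance
    refine le_of_tendsto_of_tendsto (hc1.continuousAt.tendsto.mono_left nhdsWithin_le_nhds)
      (hc2.continuousAt.tendsto.mono_left nhdsWithin_le_nhds) (b := 𝓝[<] (1 : ℝ)) ?_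
    have h4 : Set.Ioo (0 : ℝ) 1 ∈ 𝓝[<] (1 : ℝ) := Ioo_mem_nhdsLT (by norm_num)
    filter_upwards [h4] with t ht
    exact hineq t ht.1 ht.2
  rw [Complex.ofReal_one, mul_one] at hlim
  intro hzero
  rw [hzero, norm_zero] at hlim
  have h4 : 0 < ‖evR z (D.coeff 0) + evR z (D.coeff S) * evR z (eta : RO O)‖ := by
    rw [norm_pos_iff, mul_comm (evR z (D.coeff S))]
    exact hz
  have h5 : 0 < (1 - ‖s‖) ^ m := pow_pos (by linarith) _
  have h6 := mul_pos h4 h5
  linarith

end Pool.Agent.B5.H38
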