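import Pool.Agent.Lib.MP_b5021c_nt.IfaceS1
import Pool.Agent.Lib.MP_b5021c_nt.B.H71.I1c

/-!
# Board b5, stage 2, row S_BPE: small non-pure factors at two loads with a common port
-/

namespace Pool.Agent.B5.H38

open scoped LaurentPolynomial
open AddMonoidAlgebra Pool.Agent.B5.H71

section NnLemmas

variable {O : Type} [CommRing O] {L : Type} [AddCommGroup L]

theorem nnMul (lam : L →+ ℤ) (F G : AO O L) (hF : Nn lam F) (hG : Nn lam G) :
    Nn lam (F * G) := by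
  classical
  intro c hc
  have h1 := AddMonoidAlgebra.support_coeff_mul_subset F G hc
  obtain ⟨a, ha, b, hb, rfl⟩ := Finset.mem_add.1 h1
  rw [map_add]
  exact add_nonneg (hF a ha) (hG b hb)

theorem nnSingle (lam : L →+ ℤ) (a : L) (q : RO O) (ha : 0 ≤ lam a) :
    Nn lam (single a q : AO O L) := by
  intro b hb
  rw [coeff_single] at hb
  have h1 := Finsupp.support_single_subset hb
  rw [Finset.mem_singleton] at h1
  rw [h1]
  exact ha

theorem nnSub (lam : L →+ ℤ) (F G : AO O L) (hF : Nn lam F) (hG : Nn lam G) :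
    Nn lam (F - G) := by
  intro a ha
  by_contra h
  rw [Finsupp.mem_support_iff] at ha
  apply ha
  have h1 : F.coeff a = 0 := by
    by_contra h2
    exact h (hF a (Finsupp.mem_support_iff.2 h2))
  have h2 : G.coeff a = 0 := by
    by_contra h2
    exact h (hG a (Finsupp.mem_support_iff.2 h2))
  rw [coeff_sub, Finsupp.sub_apply, h1, h2, sub_zero]

theorem nnOneSub (lam : L →+ ℤ) (a : L) (q : RO O) (ha : 0 ≤ lam a) :
    Nn lam (1 - single a q : AO O L) := by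
  rw [one_def]
  exact nnSub lam _ _ (nnSingle lam 0 1 (by rw [map_zero])) (nnSingle lam a q ha)

theorem eqCst (q : AO O L) (hz : ∀ a ∈ supp q, a = 0) : q = cst (q.coeff 0) := by
  classical
  apply AddMonoidAlgebra.ext
  apply Finsupp.ext
  intro a
  rw [cst, coeff_single, Finsupp.single_apply]
  split_ifs with h0
  · rw [← h0]
  · by_contra h1
    exact h0 (hz a h1).symm

end NnLemmas

section Half

variable {O : Type} [CommRing O] [IsDomain O] [IsPrincipalIdealRing O] [Coef O]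

theorem prim_prod (hP : PrimS) {L : Type} [AddCommGroup L] [Module.Free ℤ L] [Module.Finite ℤ L]
    {ι : Type} (s : Finset ι) (F : ι → AO O L) (hF : ∀ i ∈ s, Prim (F i)) :
    Prim (∏ i ∈ s, F i) := by
  classical
  induction s using Finset.induction_on with
  | empty =>
    rw [Finset.prod_empty]
    exact prim_one
  | insert i s hi ih =>
    rw [Finset.prod_insert hi]
    exact (hP O _ _ _).1 (hF i (Finset.mem_insert_self _ _))
      (ih fun j hj => hF j (Finset.mem_insert_of_mem hj))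

theorem half (hqra : QraS) (hmin : MinS) (hc1 : C1bS) (hprim : PrimS) (hcom : ComS)
    (hfull : FullS) (hrk : RkS)
    {P L : Type} [Fintype P] [DecidableEq P] [AddCommGroup L] [Module.Free ℤ L]
    [Module.Finite ℤ L] {phi : L →+ (P → ℤ)} {D : AO O L} {S : L} {i0 : P} {eta₁ eta₂ : (RO O)ˣ}
    {h : co phi i0 S = 1} {c₁ c₂ : RO O} {n₁ n₂ : ℕ} {G₁ : Fin n₁ → AO O (Ker (co phi i0))}
    {G₂ : Fin n₂ → AO O (Ker (co phi i0))}
    (f1 : FD phi D S i0 eta₁ h c₁ n₁ G₁) (f2 : FD phi D S i0 eta₂ h c₂ n₂ G₂) (hne : eta₁ ≠ eta₂)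
    {l₁ : Fin n₁} {l₂ : Fin n₂} {b₁ b₂ : Ker (co phi i0)} {j : P} {e₁ e₂ : (RO O)ˣ}
    (t1 : Spt phi S i0 G₁ l₁ b₁ j e₁) (t2 : Spt phi S i0 G₂ l₂ b₂ j e₂)
    (hj : co (phK phi (co phi i0)) j b₁ = 1)
    (q : AO O (Ker (co (phK phi (co phi i0)) j))) (hq0 : q ≠ 0)
    (hX : Xl phi D i0 b₁ j hj e₁ =
      q * ∏ i ∈ Finset.univ.erase l₁, res (Ker (co (phK phi (co phi i0)) j)) (G₁ i))
    (hsym : ∀ a ∈ supp q, -a ∈ supp q)
    (mu : Ker (co phi i0) →+ ℤ) (hmu1 : Pos mu (cl (co phi i0) S h eta₁ D))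
    (hmu2 : Pos mu (cl (co phi i0) S h eta₂ D))
    (hinj : ∀ a ∈ supp q, mu (a : Ker (co phi i0)) = 0 → a = 0)
    (hd : 0 ≤ mu (b₂ - b₁)) :
    rk (supp (cl (co phi i0) S h eta₂ D)) ≤ 1 := by
  classical
  have hj2 : co (phK phi (co phi i0)) j b₂ = 1 := t2.bj
  have hG1 : ∀ i, FullAt mu (G₁ i) := fun i => f1.full i mu hmu1
  have hG2 : ∀ i, FullAt mu (G₂ i) := fun i => f2.full i mu hmu2
  have hU1 := full_U hfull l₁ b₁ j e₁ t1 hj mu hG1
  have hU2 := full_U hfull l₂ b₂ j e₂ t2 hj2 mu hG2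
  have hP2 := prim_U hprim l₂ b₂ j e₂ t2 f2.irr f2.wd
  have hV2 := hqra O P L phi D S i0 eta₁ h c₁ n₁ G₁ f1 l₁ b₁ j e₁ t1 hj eta₂
  have hem1 : em (Ker (co (phK phi (co phi i0)) j))
      (∏ i ∈ Finset.univ.erase l₁, res (Ker (co (phK phi (co phi i0)) j)) (G₁ i)) =
      ∏ i ∈ Finset.univ.erase l₁, G₁ i := by
    rw [map_prod]
    refine Finset.prod_congr rfl fun i hi => ?_
    exact em_res _ _ (fun a ha => t1.other i (Finset.ne_of_mem_erase hi) a ha)
  have hem2 : em (Ker (co (phK phi (co phi i0)) j))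
      (∏ i ∈ Finset.univ.erase l₂, res (Ker (co (phK phi (co phi i0)) j)) (G₂ i)) =
      ∏ i ∈ Finset.univ.erase l₂, G₂ i := by
    rw [map_prod]
    refine Finset.prod_congr rfl fun i hi => ?_
    exact em_res _ _ (fun a ha => t2.other i (Finset.ne_of_mem_erase hi) a ha)
  have hclp : cl (co (phK phi (co phi i0)) j) b₁ hj e₁ (∏ i ∈ Finset.univ.erase l₂, G₂ i) =
      ∏ i ∈ Finset.univ.erase l₂, res (Ker (co (phK phi (co phi i0)) j)) (G₂ i) := by
    rw [map_prod]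
    apply Finset.prod_congr rfl
    intro i hi
    exact cl_res _ _ _ _ _ (oth l₂ b₂ j e₂ t2 i (Finset.ne_of_mem_erase hi))
  -- the second closed element
  have hW2 : cl (co phi i0) S h eta₂ D = cst (c₂ * (G₂ l₂).coeff 0) *
      ((1 - single b₂ ((e₂⁻¹ : (RO O)ˣ) : RO O)) * ∏ i ∈ Finset.univ.erase l₂, G₂ i) := by
    rw [f2.eq, ← Finset.mul_prod_erase Finset.univ G₂ (Finset.mem_univ l₂), cst_mul]
    conv_lhs => rw [t2.eq]
    ring
  obtain ⟨δ, hδ⟩ : ∃ x, x = prj (co (phK phi (co phi i0)) j) b₁ hj b₂ := ⟨_, rfl⟩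
  obtain ⟨κ, hκ⟩ : ∃ x : RO O, x = ((e₂⁻¹ : (RO O)ˣ) : RO O) *
    ((e₁ ^ (co (phK phi (co phi i0)) j b₂) : (RO O)ˣ) : RO O) := ⟨_, rfl⟩
  have hcl2 : cl (co (phK phi (co phi i0)) j) b₁ hj e₁ (cl (co phi i0) S h eta₂ D) =
      cst (c₂ * (G₂ l₂).coeff 0) * ((1 - single δ κ) *
        ∏ i ∈ Finset.univ.erase l₂, res (Ker (co (phK phi (co phi i0)) j)) (G₂ i)) := by
    rw [hW2, map_mul, map_mul, hclp, cl_cst, map_sub, map_one, cl_single, ← hδ, ← hκ]
  obtain ⟨U1, hU1e⟩ : ∃ x, x = ∏ i ∈ Finset.univ.erase l₁,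
    res (Ker (co (phK phi (co phi i0)) j)) (G₁ i) := ⟨_, rfl⟩
  obtain ⟨U2, hU2e⟩ : ∃ x, x = ∏ i ∈ Finset.univ.erase l₂,
    res (Ker (co (phK phi (co phi i0)) j)) (G₂ i) := ⟨_, rfl⟩
  obtain ⟨r, hr⟩ : ∃ x, x = 1 - (eta₂ : RO O) * ((eta₁⁻¹ : (RO O)ˣ) : RO O) := ⟨_, rfl⟩
  have hr0 : r ≠ 0 := by
    intro h0
    rw [hr] at h0
    have h7 : ((eta₂ * eta₁⁻¹ : (RO O)ˣ) : RO O) = ((1 : (RO O)ˣ) : RO O) := by
      rw [Units.val_mul, Units.val_one]
      exact (sub_eq_zero.1 h0).symm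
    have h8 := Units.ext h7
    exact hne (mul_inv_eq_one.1 h8).symm
  rw [← hU1e] at hU1 hem1 hX
  rw [← hU2e] at hU2 hem2 hP2 hcl2
  have hkey : cst r * (q * U1) = cst (c₂ * (G₂ l₂).coeff 0) * ((1 - single δ κ) * U2) := by
    rw [← hcl2, hV2, hX, hr]
  -- the functional is non-negative
  have hδmu : (mu.comp (incl (Ker (co (phK phi (co phi i0)) j)))) δ = mu (b₂ - b₁) := by
    change mu (δ : Ker (co phi i0)) = _
    rw [hδ, prj_coe, hj2, one_smul]
  have hnn : Nn (mu.comp (incl (Ker (co (phK phi (co phi i0)) j)))) (cst r * (q * U1)) := by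
    rw [hkey]
    refine nnMul _ _ _ (nnSingle _ _ _ (by rw [map_zero])) (nnMul _ _ _ (nnOneSub _ _ _ ?_) ?_)
    · rw [hδmu]; exact hd
    · exact nn_of_pos _ _ hU2.2.1
  have hge : ∀ a ∈ supp q, 0 ≤ mu (a : Ker (co phi i0)) := by
    refine hmin O _ q U1 hq0 hU1.1 (mu.comp (incl (Ker (co (phK phi (co phi i0)) j)))) 0 ?_
    intro a ha
    apply hnn a
    rw [Finsupp.mem_support_iff, cst_mul_coeff]
    exact mul_ne_zero hr0 ha
  have hqc : q = cst (q.coeff 0) := by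
    apply eqCst
    intro a ha
    apply hinj a ha
    have h1 := hge a ha
    have h2 := hge (-a) (hsym a ha)
    have h3 : mu ((-a : Ker (co (phK phi (co phi i0)) j)) : Ker (co phi i0)) =
        - mu (a : Ker (co phi i0)) := by
      rw [Submodule.coe_neg, map_neg]
    rw [h3] at h2
    omega
  have hqc0 : q.coeff 0 ≠ 0 := by
    intro h0
    apply hq0
    rw [hqc, h0]
    exact single_zero 0
  -- division
  have hdvd : U2 ∣ U1 := by
    refine hc1 O _ U2 U1 (r * q.coeff 0) hP2 (mul_ne_zero hr0 hqc0) ?_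
    refine ⟨cst (c₂ * (G₂ l₂).coeff 0) * (1 - single δ κ), ?_⟩
    rw [cst_mul, mul_assoc, ← hqc, hkey]
    ring
  have hd1 : (∏ i ∈ Finset.univ.erase l₂, G₂ i) ∣ cl (co phi i0) S h eta₁ D := by
    have h1 : (∏ i ∈ Finset.univ.erase l₂, G₂ i) ∣ ∏ i ∈ Finset.univ.erase l₁, G₁ i := by
      rw [← hem1, ← hem2]
      exact map_dvd _ hdvd
    refine h1.trans ?_
    rw [f1.eq, ← Finset.mul_prod_erase Finset.univ G₁ (Finset.mem_univ l₁)]
    exact ⟨cst c₁ * G₁ l₁, by ring⟩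
  have hd2 : (∏ i ∈ Finset.univ.erase l₂, G₂ i) ∣ cl (co phi i0) S h eta₂ D := by
    rw [hW2]
    exact ⟨cst (c₂ * (G₂ l₂).coeff 0) * (1 - single b₂ ((e₂⁻¹ : (RO O)ˣ) : RO O)), by ring⟩
  have hpu : Prim (∏ i ∈ Finset.univ.erase l₂, G₂ i) :=
    prim_prod hprim _ _ fun i _ => (hprim O _ (G₂ i) 1).2.1 (f2.irr i) (f2.wd i)
  have hnw := hcom O P L phi D S i0 eta₁ eta₂ h f1.cc.dd f1.cc.ray hne _ hpu hd1 hd2
  have hu0 : (∏ i ∈ Finset.univ.erase l₂, G₂ i).coeff 0 ≠ 0 := by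
    rw [← hem2]
    have h1 := em_coeff (Ker (co (phK phi (co phi i0)) j)) U2 0
    rw [Submodule.coe_zero] at h1
    rw [h1]
    exact hU2.1
  have huc := eqCst (∏ i ∈ Finset.univ.erase l₂, G₂ i) (fun a ha => by
    by_contra h0
    exact hnw ⟨a, ha, 0, hu0, h0⟩)
  obtain ⟨u0, hu0e⟩ : ∃ x, x = (∏ i ∈ Finset.univ.erase l₂, G₂ i).coeff 0 := ⟨_, rfl⟩
  rw [← hu0e] at huc
  have hb2 : b₂ ≠ 0 := by
    intro h0
    rw [h0, map_zero] at hj2
    exact zero_ne_one hj2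
  have hsupp : supp (cl (co phi i0) S h eta₂ D) ⊆ insert 0 {b₂} := by
    intro a ha
    by_contra hcon
    rw [Set.mem_insert_iff, Set.mem_singleton_iff, not_or] at hcon
    apply ha
    have h1 : cl (co phi i0) S h eta₂ D = single 0 (c₂ * (G₂ l₂).coeff 0 * u0) -
        single b₂ (c₂ * (G₂ l₂).coeff 0 * (((e₂⁻¹ : (RO O)ˣ) : RO O) * u0)) := by
      rw [hW2, huc, sub_mul, one_mul, mul_sub, cst, cst, single_mul_single, single_mul_single,
        single_mul_single, add_zero, zero_add, add_zero]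
    rw [h1, coeff_sub, coeff_single, coeff_single, Finsupp.sub_apply,
      Finsupp.single_eq_of_ne hcon.1, Finsupp.single_eq_of_ne hcon.2, sub_zero]
  obtain ⟨-, hmono, -, -, -, -, hone, hins, -, -⟩ := hrk (Ker (co phi i0)) (Ker (co phi i0))
  refine (hmono _ _ hsupp).trans ?_
  rw [hins, hone b₂ hb2]

end Half

theorem bpe (hqst : QstS) (hqra : QraS) (hgen : GenS) (hmin : MinS) (hc1 : C1bS)
    (hprim : PrimS) (hcom : ComS) (hfull : FullS) (hrk : RkS) : BpeS := by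
  intro O _ _ _ _ P L _ _ _ _ _ phi D S i0 eta₁ eta₂ h c₁ c₂ n₁ n₂ G₁ G₂ f1 f2 hne l₁ l₂ b₁ b₂
    j e₁ e₂ t1 t2
  classical
  have hj1 : co (phK phi (co phi i0)) j b₁ = 1 := t1.bj
  have hj2 : co (phK phi (co phi i0)) j b₂ = 1 := t2.bj
  obtain ⟨q1, hq1, hX1, -, hs1, -⟩ := hqst O P L phi D S i0 eta₁ h c₁ n₁ G₁ f1 l₁ b₁ j e₁ t1 hj1
  obtain ⟨q2, hq2, hX2, -, hs2, -⟩ := hqst O P L phi D S i0 eta₂ h c₂ n₂ G₂ f2 l₂ b₂ j e₂ t2 hj2
  obtain ⟨-, -, lam, hlS, hlam⟩ := f1.cc.ray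
  have hV1 := pos_cl (co phi i0) S h eta₁ D lam hlS hlam
  have hV2 := pos_cl (co phi i0) S h eta₂ D lam hlS hlam
  obtain ⟨mu, -, hmuS, hmuT⟩ := hgen (Ker (co phi i0))
    ((cl (co phi i0) S h eta₁ D).coeff.support.erase 0 ∪
      (cl (co phi i0) S h eta₂ D).coeff.support.erase 0)
    (insert 0 (q1.coeff.support.image (incl (Ker (co (phK phi (co phi i0)) j))) ∪
      q2.coeff.support.image (incl (Ker (co (phK phi (co phi i0)) j)))))
    ⊥ (lam.comp (incl (Ker (co phi i0)))) (by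
      intro k hk
      rw [Submodule.mem_bot] at hk
      rw [hk, map_zero]) (by
      intro n a hn ha
      rw [Submodule.mem_bot] at ha ⊢
      exact (smul_eq_zero.mp ha).resolve_left hn) (by
      intro a ha
      rw [Finset.mem_union, Finset.mem_erase, Finset.mem_erase] at ha
      rcases ha with ha | ha
      · exact hV1 a ha.2 ha.1
      · exact hV2 a ha.2 ha.1) (by
      intro a _ b _ hab
      rw [Submodule.mem_bot] at hab
      exact sub_eq_zero.mp hab)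
  have hp1 : Pos mu (cl (co phi i0) S h eta₁ D) := fun a ha h0 =>
    hmuS a (Finset.mem_union_left _ (Finset.mem_erase.mpr ⟨h0, ha⟩))
  have hp2 : Pos mu (cl (co phi i0) S h eta₂ D) := fun a ha h0 =>
    hmuS a (Finset.mem_union_right _ (Finset.mem_erase.mpr ⟨h0, ha⟩))
  have hi1 : ∀ a ∈ supp q1, mu (a : Ker (co phi i0)) = 0 → a = 0 := by
    intro a ha h0
    apply Subtype.ext
    refine hmuT (incl (Ker (co (phK phi (co phi i0)) j)) a)
      (Finset.mem_insert_of_mem (Finset.mem_union_left _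
      (Finset.mem_image_of_mem _ (Finsupp.mem_support_iff.mpr ha)))) 0
      (Finset.mem_insert_self _ _) ?_
    rw [incl_apply, h0, map_zero]
  have hi2 : ∀ a ∈ supp q2, mu (a : Ker (co phi i0)) = 0 → a = 0 := by
    intro a ha h0
    apply Subtype.ext
    refine hmuT (incl (Ker (co (phK phi (co phi i0)) j)) a)
      (Finset.mem_insert_of_mem (Finset.mem_union_right _
      (Finset.mem_image_of_mem _ (Finsupp.mem_support_iff.mpr ha)))) 0
      (Finset.mem_insert_self _ _) ?_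
    rw [incl_apply, h0, map_zero]
  rcases le_total 0 (mu (b₂ - b₁)) with hd | hd
  · right
    exact half hqra hmin hc1 hprim hcom hfull hrk f1 f2 hne t1 t2 hj1 q1 hq1 hX1 hs1 mu hp1 hp2
      hi1 hd
  · left
    refine half hqra hmin hc1 hprim hcom hfull hrk f2 f1 hne.symm t2 t1 hj2 q2 hq2 hX2 hs2 mu hp2
      hp1 hi2 ?_
    rw [← neg_sub, map_neg]
    linarith

end Pool.Agent.B5.H38
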